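import Pool.Agent.helper53.ORT.Spec

/-!
# Row E2: the middle block
-/

set_option autoImplicit false

namespace Pool.Agent.ORT

open Module Pool.Agent.GS

theorem E2_half {F V : Type} [Field F] [AddCommGroup V] [Module F V]
    (B : LinearMap.BilinForm F V) (y : Equiv.Perm V) (ρ τ : ℕ) (hb : Bk B y (ρ + τ))
    (R : Fin ρ → V) (X : Fin τ → V) (h : Og B (Sum.elim R X))
    (hs : IsSquare ((∏ i, B (R i) (R i)) * ∏ i, B (X i) (X i))) : Gn B y 2 (fl B (Sum.elim R X)) := by
  rw [← fl_equiv h (finSumFinEquiv (m := ρ) (n := τ)).symm]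
  refine hb _ (h.comp (finSumFinEquiv (m := ρ) (n := τ)).symm.injective) ?_
  rw [Equiv.prod_comp (finSumFinEquiv (m := ρ) (n := τ)).symm
    (fun i => B (Sum.elim R X i) (Sum.elim R X i)), Fintype.prod_sum_type]
  exact hs

theorem E2 : E2_stmt := by
  intro F V _ _ _ B hB y k hk ρ τ hb R X hR hX hRX hkX hs
  have h1 : Og B (Sum.elim R X) := Og.sum hB hR hX hRX
  have h2 : Og B (Sum.elim (fun i => k (R i)) X) := Og.sum hB (hR.mem hk) hX hkX
  have e : k * fl B R * k⁻¹ * fl B R =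
      fl B (Sum.elim (fun i => k (R i)) X) * fl B (Sum.elim R X) := by
    rw [fl_conj hk hR, fl_sum h2, fl_sum h1, fl_comm h1, mul_assoc, ← mul_assoc (fl B X), fl_sq,
      one_mul]
  rw [e]
  have g1 : Gn B y 2 (fl B (Sum.elim (fun i => k (R i)) X)) := by
    refine E2_half B y ρ τ hb _ X h2 ?_
    simp only [hk.2]
    exact hs
  exact Gn.mul g1 (E2_half B y ρ τ hb R X h1 hs) (fl_mem hB _).1

end Pool.Agent.ORT
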