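import Pool.Agent.helper53.ORT.Spec

/-!
# Row SGU: Siegel elements are unipotent
-/

set_option autoImplicit false

namespace Pool.Agent.ORT

open Module Pool.Agent.GS

theorem SGU : SGU_stmt := by
  intro F V _ _ _ _ B hF hB u d hu hd hu0 hdu
  have h2 : (2 : F) ≠ 0 := Ring.two_ne_zero hF
  have hdu' : B d u = 0 := by rw [hB.symm, hd]
  refine ⟨fun h => ?_, fun v => ?_⟩
  · apply hu0
    apply hB.nd
    intro x
    rw [hB.symm]
    by_contra hx
    have h1 : sg B u d x = x := by rw [h]; rfl
    rw [sg_apply hB h2 hu hd] at h1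
    apply hdu ((B x u)⁻¹ * (B x d + B d d / 2 * B x u))
    have h3 : B x u • d = (B x d + B d d / 2 * B x u) • u := by
      rw [add_smul]
      have h4 : B x u • d - B x d • u - (B d d / 2 * B x u) • u = 0 := by
        have h5 : x + B x u • d - B x d • u - (B d d / 2 * B x u) • u - x = 0 := by
          rw [h1, sub_self]
        rw [← h5]
        abel
      rw [sub_sub, sub_eq_zero] at h4
      exact h4
    rw [mul_smul, ← h3, smul_smul, inv_mul_cancel₀ hx, one_smul]
  · simp only [sg_apply hB h2 hu hd, map_sub, map_add, LinearMap.sub_apply, LinearMap.add_apply,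
      map_smul, LinearMap.smul_apply, smul_eq_mul, hu, hd, hdu', mul_zero, sub_zero, add_zero]
    match_scalars <;> field_simp <;> ring

end Pool.Agent.ORT
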